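import Pool.Agent.N689.ZL.Gen

/-!
# Residual finiteness of random Artin groups: a zero-one law

A Coxeter matrix of rank `n` is given by the list `x` of its `n (n - 1) / 2` labels above the
diagonal (`0` stands for infinity); in the random Artin group of rank `n` the labels are
independent, with an arbitrary distribution `p`.

Theorem. Either all Artin groups all of whose labels have positive probability are virtually
residually finite, or the random Artin group of rank `n` is virtually residually finite with
probability at most `exp (- c n ^ 2)` for large `n`.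
-/

set_option autoImplicit false

namespace Pool.Agent.Results.MP_61f49c_al.RandomArtinGroups

open Pool.Agent.N689.ZL

/-- The group has a residually finite subgroup of finite index. -/
def VirtuallyRF (G : Type) [Group G] : Prop :=
  ∃ H : Subgroup G, H.FiniteIndex ∧
    ∀ g : H, g ≠ 1 → ∃ K : Subgroup H, K.Normal ∧ K.FiniteIndex ∧ g ∉ K

theorem finiteIndex_comap {A B : Type} [Group A] [Group B] (f : A →* B) {H : Subgroup B}
    (hH : H.FiniteIndex) : (H.comap f).FiniteIndex := by
  have h := Subgroup.relIndex_comap_ne_zero f (J := H) (K := ⊤)
    (by rw [Subgroup.relIndex_top_right]; exact hH.index_ne_zero)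
  rw [Subgroup.comap_top, Subgroup.relIndex_top_right] at h
  exact ⟨h⟩

theorem of_injective (G G' : Type) [Group G] [Group G'] (f : G →* G')
    (hf : Function.Injective f) (h : VirtuallyRF G') : VirtuallyRF G := by
  obtain ⟨H, hH, hg⟩ := h
  refine ⟨H.comap f, finiteIndex_comap f hH, ?_⟩
  intro g hg1
  have h1 : f.subgroupComap H g ≠ 1 := by
    intro h2
    apply hg1
    have h3 : f g = 1 := congrArg Subtype.val h2
    exact Subtype.ext (hf (h3.trans (map_one f).symm))
  obtain ⟨K, hK, hK2, hgK⟩ := hg _ h1
  exact ⟨K.comap (f.subgroupComap H), inferInstance, finiteIndex_comap _ hK2, hgK⟩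

/-- For every distribution `p` of the labels: (1) all Artin groups whose labels have positive
probability are virtually residually finite, or (2) for some `c > 0` and all large `n` the random
Artin group of rank `n` is virtually residually finite with probability at most
`exp (- c n ^ 2)`. -/
theorem result (p : PMF ℕ) :
    (∀ n x, x.length = n.choose 2 → (∀ t ∈ x, p t ≠ 0) → VirtuallyRF (ArtinGroup n x)) ∨
    ∃ c : ℝ, 0 < c ∧ ∃ n₀ : ℕ, ∀ n ≥ n₀,
      prob p n {x | VirtuallyRF (ArtinGroup n x)} ≤ Real.exp (-(c * (n : ℝ) ^ 2)) :=
  zeroOne VirtuallyRF (fun G H _ _ f hf h => of_injective G H f hf h) p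

end Pool.Agent.Results.MP_61f49c_al.RandomArtinGroups
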